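import Mathlib

set_option autoImplicit false

namespace Pool.Agent.Results.MP_d0f7e0_co.LowerBound

open Relation

/-- The monochromatic component of `v` in the colouring `ω`. -/
def Comp {V C : Type*} (G : SimpleGraph V) (ω : V → C) (v : V) : Set V :=
  {u | ReflTransGen (fun x y => G.Adj x y ∧ ω x = ω y) v u}

/-- `ω'` arises from `ω` by one move: the component of some vertex gets some colour `d`. -/
def Move {V C : Type*} (G : SimpleGraph V) (ω ω' : V → C) : Prop :=
  ∃ v d, (∀ u ∈ Comp G ω v, ω' u = d) ∧ (∀ u, u ∉ Comp G ω v → ω' u = ω u)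

/-- `ω'` arises from `ω` by exactly `m` moves. -/
def Moves {V C : Type*} (G : SimpleGraph V) : ℕ → (V → C) → (V → C) → Prop
  | 0, ω, ω' => ω' = ω
  | m + 1, ω, ω' => ∃ ω'', Move G ω ω'' ∧ Moves G m ω'' ω'

/-- The least number of moves after which all vertices have one colour. -/
noncomputable def floodNumber {V C : Type*} (G : SimpleGraph V) (ω : V → C) : ℕ :=
  sInf {m | ∃ ω', Moves G m ω ω' ∧ ∃ d, ∀ v, ω' v = d}

/-- `M_c(G)`: the largest value of `floodNumber` over all surjective colourings with `c`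
colours. -/
noncomputable def maxFlood {V : Type*} (G : SimpleGraph V) (c : ℕ) : ℕ :=
  sSup {m | ∃ ω : V → Fin c, Function.Surjective ω ∧ m = floodNumber G ω}

/-- The `k × n` grid. -/
def grid (k n : ℕ) : SimpleGraph (Fin k × Fin n) where
  Adj x y := (x.1 = y.1 ∧ ((x.2 : ℕ) + 1 = y.2 ∨ (y.2 : ℕ) + 1 = x.2)) ∨
    (x.2 = y.2 ∧ ((x.1 : ℕ) + 1 = y.1 ∨ (y.1 : ℕ) + 1 = x.1))
  symm := ⟨by
    rintro x y (⟨h1, h2⟩ | ⟨h1, h2⟩)
    · exact Or.inl ⟨h1.symm, h2.symm⟩
    · exact Or.inr ⟨h1.symm, h2.symm⟩⟩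
  loopless := ⟨by
    rintro x (⟨h1, h2⟩ | ⟨h1, h2⟩) <;> omega⟩

section Packs

variable {C : Type*} [AddCommGroup C]

/-- `s` contains `k` disjoint nonempty zero-sum submultisets. -/
def Pack (s : Multiset C) (k : ℕ) : Prop :=
  ∃ L : Multiset (Multiset C), Multiset.card L = k ∧ (∀ B ∈ L, B ≠ 0 ∧ B.sum = 0) ∧ L.join ≤ s

/-- The cost of the multiset `s` is at most `m`. -/
def CP (s : Multiset C) (m : ℕ) : Prop := ∃ k, Pack s k ∧ Multiset.card s ≤ m + k

theorem CP_zero : CP (0 : Multiset C) 0 := ⟨0, ⟨0, rfl, by simp, by simp⟩, by simp⟩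

theorem CP_mono {s : Multiset C} {m m' : ℕ} (h : CP s m) (hm : m ≤ m') : CP s m' := by
  obtain ⟨k, hk, hc⟩ := h
  exact ⟨k, hk, by omega⟩

theorem CP_cons {s : Multiset C} {m : ℕ} (y : C) (h : CP s m) : CP (y ::ₘ s) (m + 1) := by
  obtain ⟨k, ⟨L, h1, h2, h3⟩, hc⟩ := h
  refine ⟨k, ⟨L, h1, h2, h3.trans (Multiset.le_cons_self s y)⟩, ?_⟩
  rw [Multiset.card_cons]
  omega

theorem CP_cons_zero {s : Multiset C} {m : ℕ} (h : CP s m) : CP ((0 : C) ::ₘ s) m := by
  obtain ⟨k, ⟨L, h1, h2, h3⟩, hc⟩ := h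
  refine ⟨k + 1, ⟨{0} ::ₘ L, ?_, ?_, ?_⟩, ?_⟩
  · rw [Multiset.card_cons, h1]
  · intro B hB
    rcases Multiset.mem_cons.1 hB with rfl | hB
    · constructor
      · simp
      · simp
    · exact h2 B hB
  · rw [Multiset.join_cons, Multiset.singleton_add]
    exact (Multiset.cons_le_cons_iff 0).2 h3
  · rw [Multiset.card_cons]
    omega

omit [AddCommGroup C] in
theorem pack_del {s : Multiset C} {x : C} {L : Multiset (Multiset C)}
    (h3 : L.join ≤ x ::ₘ s) (hn : ¬ L.join ≤ s) :
    ∃ B L', L = (x ::ₘ B) ::ₘ L' ∧ L'.join + B ≤ s := by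
  have hx : x ∈ L.join := by
    by_contra hx
    exact hn ((Multiset.le_cons_of_notMem hx).1 h3)
  obtain ⟨B0, hB0, hxB⟩ := Multiset.mem_join.1 hx
  obtain ⟨L', rfl⟩ := Multiset.exists_cons_of_mem hB0
  obtain ⟨B, rfl⟩ := Multiset.exists_cons_of_mem hxB
  refine ⟨B, L', rfl, ?_⟩
  rw [Multiset.join_cons, Multiset.cons_add, Multiset.cons_le_cons_iff] at h3
  rwa [add_comm]

theorem CP_del {s : Multiset C} {m : ℕ} {x : C} (h : CP (x ::ₘ s) m) : CP s m := by
  obtain ⟨k, ⟨L, h1, h2, h3⟩, hc⟩ := h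
  rw [Multiset.card_cons] at hc
  by_cases hn : L.join ≤ s
  · exact ⟨k, ⟨L, h1, h2, hn⟩, by omega⟩
  · obtain ⟨B, L', rfl, h4⟩ := pack_del h3 hn
    rw [Multiset.card_cons] at h1
    refine ⟨Multiset.card L', ⟨L', rfl, fun B hB => h2 B (Multiset.mem_cons_of_mem hB),
      (Multiset.le_add_right _ _).trans h4⟩, by omega⟩

theorem CP_of_le {s t : Multiset C} {m : ℕ} (h : CP t m) (hst : s ≤ t) : CP s m := by
  obtain ⟨u, rfl⟩ := Multiset.le_iff_exists_add.1 hst
  clear hst
  induction u using Multiset.induction_on with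
  | empty => simpa using h
  | cons x u ih =>
    apply ih
    rw [Multiset.add_cons] at h
    exact CP_del h

theorem CP_change {s : Multiset C} {m : ℕ} {x : C} (y : C) (h : CP (x ::ₘ s) m) :
    CP (y ::ₘ s) (m + 1) := CP_cons y (CP_del h)

theorem CP_change_two {s : Multiset C} {m : ℕ} {x y : C} (e : C) (h : CP (x ::ₘ y ::ₘ s) m) :
    CP ((x + e) ::ₘ (y - e) ::ₘ s) (m + 1) := by
  obtain ⟨k, ⟨L, h1, h2, h3⟩, hc⟩ := h
  rw [Multiset.card_cons, Multiset.card_cons] at hc
  have hle : s ≤ (x + e) ::ₘ (y - e) ::ₘ s :=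
    (Multiset.le_cons_self _ _).trans (Multiset.le_cons_self _ _)
  by_cases hn : L.join ≤ y ::ₘ s
  · by_cases hn2 : L.join ≤ s
    · refine ⟨k, ⟨L, h1, h2, hn2.trans hle⟩, ?_⟩
      rw [Multiset.card_cons, Multiset.card_cons]
      omega
    · obtain ⟨B, L', rfl, h4⟩ := pack_del hn hn2
      rw [Multiset.card_cons] at h1
      refine ⟨Multiset.card L', ⟨L', rfl, fun B hB => h2 B (Multiset.mem_cons_of_mem hB),
        ((Multiset.le_add_right _ _).trans h4).trans hle⟩, ?_⟩
      rw [Multiset.card_cons, Multiset.card_cons]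
      omega
  · obtain ⟨B, L', rfl, h4⟩ := pack_del h3 hn
    rw [Multiset.card_cons] at h1
    have hB := h2 (x ::ₘ B) (Multiset.mem_cons_self _ _)
    by_cases hn3 : L'.join ≤ s
    · -- drop the block of `x`
      refine ⟨Multiset.card L', ⟨L', rfl, fun B hB => h2 B (Multiset.mem_cons_of_mem hB),
        hn3.trans hle⟩, ?_⟩
      rw [Multiset.card_cons, Multiset.card_cons]
      omega
    · obtain ⟨B2, L'', rfl, h5⟩ := pack_del ((Multiset.le_add_right _ _).trans h4) hn3
      have hB2 := h2 (y ::ₘ B2) (Multiset.mem_cons_of_mem (Multiset.mem_cons_self _ _))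
      rw [Multiset.card_cons] at h1
      have h6 : L''.join + B2 + B ≤ s := by
        have h7 : y ::ₘ (L''.join + B2 + B) ≤ y ::ₘ s := by
          refine le_trans (le_of_eq ?_) h4
          rw [Multiset.join_cons, Multiset.cons_add, Multiset.cons_add, add_comm B2]
        exact (Multiset.cons_le_cons_iff y).1 h7
      refine ⟨Multiset.card L'' + 1, ⟨((x + e) ::ₘ (y - e) ::ₘ (B2 + B)) ::ₘ L'', ?_, ?_, ?_⟩, ?_⟩
      · rw [Multiset.card_cons]
      · intro A hA
        rcases Multiset.mem_cons.1 hA with rfl | hA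
        · refine ⟨Multiset.cons_ne_zero, ?_⟩
          have s1 := hB.2
          have s2 := hB2.2
          rw [Multiset.sum_cons] at s1 s2
          rw [Multiset.sum_cons, Multiset.sum_cons, Multiset.sum_add]
          have : x + e + (y - e + (B2.sum + B.sum)) = (x + B.sum) + (y + B2.sum) := by abel
          rw [this, s1, s2, add_zero]
        · exact h2 A (Multiset.mem_cons_of_mem (Multiset.mem_cons_of_mem hA))
      · rw [Multiset.join_cons, Multiset.cons_add, Multiset.cons_add,
          Multiset.cons_le_cons_iff, Multiset.cons_le_cons_iff]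
        refine le_trans (le_of_eq ?_) h6
        abel
      · rw [Multiset.card_cons, Multiset.card_cons]
        omega

end Packs

section Walks

variable {V C : Type*} [AddCommGroup C] {G : SimpleGraph V}

/-- The multiset of colour differences along a walk. -/
def gaps (ω : V → C) : ∀ {a b : V}, G.Walk a b → Multiset C
  | _, _, .nil => 0
  | u, _, .cons (v := v) _ p => (ω v - ω u) ::ₘ gaps ω p

theorem gaps_append (ω : V → C) {a b c : V} (p : G.Walk a b) (q : G.Walk b c) :
    gaps ω (p.append q) = gaps ω p + gaps ω q := by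
  induction p with
  | nil => simp [gaps]
  | cons h p ih => simp [gaps, ih]

theorem gaps_congr {ω ω' : V → C} {a b : V} (p : G.Walk a b)
    (h : ∀ v ∈ p.support, ω' v = ω v) : gaps ω' p = gaps ω p := by
  induction p with
  | nil => rfl
  | cons hadj p ih =>
    simp only [gaps]
    rw [ih (fun v hv => h v (by simp [hv])), h _ (by simp), h _ (by simp)]

/-- The cost of connecting `a` and `b` is at most `m`. -/
def Cst (G : SimpleGraph V) (ω : V → C) (a b : V) (m : ℕ) : Prop :=
  ∃ p : G.Walk a b, CP (gaps ω p) m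

theorem CP_gaps_const {ω : V → C} {d : C} (hω : ∀ v, ω v = d) {a b : V} (p : G.Walk a b) :
    CP (gaps ω p) 0 := by
  induction p with
  | nil => exact CP_zero
  | cons h p ih =>
    simp only [gaps]
    rw [hω, hω, sub_self]
    exact CP_cons_zero ih

variable {K : Set V} {ω ω' : V → C} {α d : C}

theorem first_hit (hK : ∀ v ∈ K, ω v = α ∧ ω' v = d) (hn : ∀ v, v ∉ K → ω' v = ω v) {a b : V}
    (p : G.Walk a b) (ha : a ∉ K) (hp : ∃ v ∈ p.support, v ∈ K) :
    ∃ x ∈ K, ∃ (p1 : G.Walk a x) (p2 : G.Walk x b), ∃ t g,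
      gaps ω' p1 = g ::ₘ t ∧ gaps ω p1 = (g + (α - d)) ::ₘ t ∧
      gaps ω' p1 + gaps ω' p2 = gaps ω' p := by
  induction p with
  | nil =>
    obtain ⟨v, hv, hvK⟩ := hp
    simp only [SimpleGraph.Walk.support_nil, List.mem_singleton] at hv
    exact absurd (hv ▸ hvK) ha
  | @cons u v w h p ih =>
    by_cases hv : v ∈ K
    · refine ⟨v, hv, SimpleGraph.Walk.cons h SimpleGraph.Walk.nil, p, 0, d - ω u, ?_, ?_, ?_⟩
      · simp only [gaps]
        rw [(hK v hv).2, hn u ha]
      · simp only [gaps]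
        rw [(hK v hv).1]
        congr 1
        abel
      · simp [gaps]
    · have hp' : ∃ z ∈ p.support, z ∈ K := by
        obtain ⟨z, hz, hzK⟩ := hp
        rw [SimpleGraph.Walk.support_cons, List.mem_cons] at hz
        rcases hz with rfl | hz
        · exact absurd hzK ha
        · exact ⟨z, hz, hzK⟩
      obtain ⟨x, hx, p1, p2, t, g, h1, h2, h3⟩ := ih hv hp'
      refine ⟨x, hx, SimpleGraph.Walk.cons h p1, p2, (ω v - ω u) ::ₘ t, g, ?_, ?_, ?_⟩
      · simp only [gaps]
        rw [h1, hn v hv, hn u ha, Multiset.cons_swap]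
      · simp only [gaps]
        rw [h2, Multiset.cons_swap]
      · simp only [gaps]
        rw [← h3, Multiset.cons_add]

theorem last_hit (hK : ∀ v ∈ K, ω v = α ∧ ω' v = d) (hn : ∀ v, v ∉ K → ω' v = ω v) {a b : V}
    (p : G.Walk a b) (hp : ∃ v ∈ p.support, v ∈ K) :
    ∃ y ∈ K, ∃ p3 : G.Walk y b, gaps ω' p3 ≤ gaps ω' p ∧
      ((gaps ω' p3 = 0 ∧ gaps ω p3 = 0) ∨
        ∃ t g, gaps ω' p3 = g ::ₘ t ∧ gaps ω p3 = (g - (α - d)) ::ₘ t) := by
  induction p with
  | @nil u =>
    obtain ⟨v, hv, hvK⟩ := hp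
    simp only [SimpleGraph.Walk.support_nil, List.mem_singleton] at hv
    exact ⟨u, hv ▸ hvK, SimpleGraph.Walk.nil, le_refl _, Or.inl ⟨rfl, rfl⟩⟩
  | @cons u v w h p ih =>
    by_cases hp' : ∃ z ∈ p.support, z ∈ K
    · obtain ⟨y, hy, p3, h1, h2⟩ := ih hp'
      exact ⟨y, hy, p3, h1.trans (Multiset.le_cons_self _ _), h2⟩
    · push Not at hp'
      have hu : u ∈ K := by
        obtain ⟨z, hz, hzK⟩ := hp
        rw [SimpleGraph.Walk.support_cons, List.mem_cons] at hz
        rcases hz with rfl | hz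
        · exact hzK
        · exact absurd hzK (hp' z hz)
      have hv : v ∉ K := hp' v (by simp)
      refine ⟨u, hu, SimpleGraph.Walk.cons h p, le_refl _, Or.inr ⟨gaps ω' p, ω v - d, ?_, ?_⟩⟩
      · simp only [gaps]
        rw [hn v hv, (hK u hu).2]
      · simp only [gaps]
        rw [(hK u hu).1, gaps_congr p (fun z hz => hn z (hp' z hz))]
        congr 1
        abel

theorem walk_of_rel {u v : V} (h : ReflTransGen (fun x y => G.Adj x y ∧ ω x = ω y) u v) :
    ∃ r : G.Walk u v, ∀ s m, CP s m → CP (gaps ω r + s) m := by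
  induction h using Relation.ReflTransGen.head_induction_on with
  | refl => exact ⟨SimpleGraph.Walk.nil, fun s m h => by simpa [gaps] using h⟩
  | head h1 _ ih =>
    obtain ⟨r, hr⟩ := ih
    refine ⟨SimpleGraph.Walk.cons h1.1 r, ?_⟩
    intro s m h
    simp only [gaps]
    rw [h1.2, sub_self, Multiset.cons_add]
    exact CP_cons_zero (hr s m h)

omit [AddCommGroup C] in
theorem rel_symm {u v : V} (h : ReflTransGen (fun x y => G.Adj x y ∧ ω x = ω y) u v) :
    ReflTransGen (fun x y => G.Adj x y ∧ ω x = ω y) v u := by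
  induction h with
  | refl => exact ReflTransGen.refl
  | tail _ h2 ih => exact ReflTransGen.head ⟨h2.1.symm, h2.2.symm⟩ ih

omit [AddCommGroup C] in
theorem comp_color {v u : V} (h : u ∈ Comp G ω v) : ω u = ω v := by
  unfold Comp at h
  simp only [Set.mem_ofPred_eq] at h
  induction h with
  | refl => rfl
  | tail _ h2 ih => rw [← h2.2, ih]

/-- One move lowers the cost by at most one. -/
theorem Cst_move {a b : V} {m : ℕ} (hM : Move G ω ω') (h : Cst G ω' a b m) :
    Cst G ω a b (m + 1) := by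
  obtain ⟨v, d, hv1, hv2⟩ := hM
  obtain ⟨p, hp⟩ := h
  have hK : ∀ u ∈ Comp G ω v, ω u = ω v ∧ ω' u = d := fun u hu => ⟨comp_color hu, hv1 u hu⟩
  by_cases hmeet : ∃ z ∈ p.support, z ∈ Comp G ω v
  · -- the middle part of the walk is replaced by a walk inside the component
    have hmid : ∀ x ∈ Comp G ω v, ∀ y ∈ Comp G ω v, ∃ r : G.Walk x y,
        ∀ s m, CP s m → CP (gaps ω r + s) m := by
      intro x hx y hy
      exact walk_of_rel (ReflTransGen.trans (rel_symm hx) hy)
    by_cases ha : a ∈ Comp G ω v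
    · obtain ⟨y, hy, p3, h1, h2⟩ := last_hit hK hv2 p hmeet
      obtain ⟨r, hr⟩ := hmid a ha y hy
      refine ⟨r.append p3, ?_⟩
      rw [gaps_append]
      apply hr
      have hp3 := CP_of_le hp h1
      rcases h2 with ⟨h2, h2'⟩ | ⟨t, g, h2, h2'⟩
      · rw [h2']
        rw [h2] at hp3
        exact CP_mono hp3 (Nat.le_succ m)
      · rw [h2']
        rw [h2] at hp3
        exact CP_change _ hp3
    · obtain ⟨x, hx, p1, p2, t1, g1, e1, e2, e3⟩ := first_hit hK hv2 p ha hmeet
      obtain ⟨y, hy, p3, h1, h2⟩ := last_hit hK hv2 p2 ⟨x, by simp, hx⟩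
      obtain ⟨r, hr⟩ := hmid x hx y hy
      refine ⟨p1.append (r.append p3), ?_⟩
      rw [gaps_append, gaps_append, add_left_comm]
      apply hr
      have hle : gaps ω' p1 + gaps ω' p3 ≤ gaps ω' p := by
        rw [← e3]
        exact Multiset.add_le_add_left h1
      have hp3 := CP_of_le hp hle
      rw [e1] at hp3
      rw [e2]
      rcases h2 with ⟨h2, h2'⟩ | ⟨t, g, h2, h2'⟩
      · rw [h2']
        rw [h2] at hp3
        rw [add_zero] at hp3 ⊢
        exact CP_change _ hp3
      · rw [h2']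
        rw [h2, Multiset.cons_add, Multiset.add_cons] at hp3
        rw [Multiset.cons_add, Multiset.add_cons]
        exact CP_change_two _ hp3
  · push Not at hmeet
    refine ⟨p, ?_⟩
    rw [← gaps_congr p (fun z hz => hv2 z (hmeet z hz))]
    exact CP_mono hp (Nat.le_succ m)

theorem Cst_moves (hG : G.Preconnected) (a b : V) :
    ∀ (m : ℕ) (ω ω' : V → C), Moves G m ω ω' → (∃ d, ∀ v, ω' v = d) → Cst G ω a b m := by
  intro m
  induction m with
  | zero =>
    rintro ω ω' h ⟨d, hd⟩
    have h' : ω' = ω := h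
    subst h'
    obtain ⟨p⟩ := hG a b
    exact ⟨p, CP_gaps_const hd p⟩
  | succ m ih =>
    rintro ω ω' ⟨ω'', h1, h2⟩ hd
    exact Cst_move h1 (ih ω'' ω' h2 hd)

end Walks

section Numeric

variable {c : ℕ} [NeZero c]

/-- The largest integer at most `1` in the residue class `x`. -/
def lam (x : ZMod c) : ℤ := 1 - ((1 - x).val : ℤ)

omit [NeZero c] in
theorem lam_le_one (x : ZMod c) : lam x ≤ 1 := by
  unfold lam
  have : (0 : ℤ) ≤ ((1 - x).val : ℤ) := Int.natCast_nonneg _
  omega

theorem lam_cast (x : ZMod c) : ((lam x : ℤ) : ZMod c) = x := by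
  unfold lam
  push_cast
  rw [ZMod.natCast_zmod_val]
  ring

omit [NeZero c] in
theorem le_lam {g : ℤ} (hg : g ≤ 1) : g ≤ lam ((g : ℤ) : ZMod c) := by
  unfold lam
  obtain ⟨r, hr⟩ : ∃ r : ℕ, (r : ℤ) = 1 - g := ⟨(1 - g).toNat, by omega⟩
  have h1 : (1 - ((g : ℤ) : ZMod c)) = ((r : ℕ) : ZMod c) := by
    have : ((r : ℕ) : ZMod c) = (((r : ℤ)) : ZMod c) := by push_cast; rfl
    rw [this, hr]
    push_cast
    rfl
  rw [h1, ZMod.val_natCast]
  have h2 : r % c ≤ r := Nat.mod_le _ _
  have h3 : ((r % c : ℕ) : ℤ) ≤ r := by exact_mod_cast h2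
  omega

omit [NeZero c] in
theorem sum_lam_le (s : Multiset (ZMod c)) : (s.map lam).sum ≤ Multiset.card s := by
  induction s using Multiset.induction_on with
  | empty => simp
  | cons x s ih =>
    rw [Multiset.map_cons, Multiset.sum_cons, Multiset.card_cons]
    have := lam_le_one x
    push_cast
    linarith

theorem sum_lam_cast (s : Multiset (ZMod c)) : (((s.map lam).sum : ℤ) : ZMod c) = s.sum := by
  induction s using Multiset.induction_on with
  | empty => simp
  | cons x s ih =>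
    rw [Multiset.map_cons, Multiset.sum_cons, Multiset.sum_cons, Int.cast_add, ih, lam_cast]

theorem block_bound {B : Multiset (ZMod c)} (hB : B ≠ 0) (hs : B.sum = 0) :
    ((c : ℤ) - 1) * (B.map lam).sum ≤ c * (Multiset.card B - 1) := by
  have hc : (1 : ℤ) ≤ c := by exact_mod_cast Nat.one_le_iff_ne_zero.2 (NeZero.ne c)
  have h1 := sum_lam_le B
  have h2 : (1 : ℤ) ≤ Multiset.card B := by
    exact_mod_cast Multiset.card_pos.2 hB
  have h3 := sum_lam_cast B
  rw [hs, ZMod.intCast_zmod_eq_zero_iff_dvd] at h3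
  obtain ⟨t, ht⟩ := h3
  rcases le_or_gt ((B.map lam).sum) 0 with h | h
  · have : ((c : ℤ) - 1) * (B.map lam).sum ≤ 0 :=
      mul_nonpos_of_nonneg_of_nonpos (by linarith) h
    have : 0 ≤ (c : ℤ) * (Multiset.card B - 1) := mul_nonneg (by linarith) (by linarith)
    linarith
  · have ht0 : 1 ≤ t := by
      by_contra hcon
      push Not at hcon
      have : (c : ℤ) * t ≤ 0 := mul_nonpos_of_nonneg_of_nonpos (by linarith) (by omega)
      linarith
    have h4 : (c : ℤ) ≤ (B.map lam).sum := by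
      rw [ht]
      nlinarith
    nlinarith

theorem CP_bound {s : Multiset (ZMod c)} {m : ℕ} (h : CP s m) :
    ((c : ℤ) - 1) * (s.map lam).sum ≤ c * m := by
  have hc : (1 : ℤ) ≤ c := by exact_mod_cast Nat.one_le_iff_ne_zero.2 (NeZero.ne c)
  obtain ⟨k, ⟨L, h1, h2, h3⟩, hcard⟩ := h
  have hL : ∀ L : Multiset (Multiset (ZMod c)), (∀ B ∈ L, B ≠ 0 ∧ B.sum = 0) →
      ((c : ℤ) - 1) * (L.join.map lam).sum ≤ c * (Multiset.card L.join - Multiset.card L) := by
    intro L
    induction L using Multiset.induction_on with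
    | empty => intro _; simp
    | cons B L ih =>
      intro hB
      have h4 := ih (fun A hA => hB A (Multiset.mem_cons_of_mem hA))
      have h5 := block_bound (hB B (Multiset.mem_cons_self _ _)).1
        (hB B (Multiset.mem_cons_self _ _)).2
      rw [Multiset.join_cons, Multiset.map_add, Multiset.sum_add, Multiset.card_add,
        Multiset.card_cons]
      push_cast
      rw [mul_add]
      linarith
  obtain ⟨R, hR⟩ := Multiset.le_iff_exists_add.1 h3
  have h6 := hL L h2
  have h7 := sum_lam_le R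
  have h8 : (Multiset.card s : ℤ) ≤ m + k := by exact_mod_cast hcard
  rw [hR, Multiset.card_add] at h8
  rw [hR, Multiset.map_add, Multiset.sum_add, mul_add]
  rw [h1] at h6
  push_cast at h8
  have h9 : ((c : ℤ) - 1) * (R.map lam).sum ≤ c * Multiset.card R := by
    have a1 : (0 : ℤ) ≤ Multiset.card R := Int.natCast_nonneg _
    nlinarith
  nlinarith

end Numeric

section Main

variable {V : Type*} {G : SimpleGraph V}

theorem gain_le {c : ℕ} [NeZero c] {f : V → ℕ} (hf : ∀ u v, G.Adj u v → f v ≤ f u + 1)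
    {a b : V} (p : G.Walk a b) :
    (f b : ℤ) - f a ≤ ((gaps (fun v => ((f v : ℕ) : ZMod c)) p).map lam).sum := by
  induction p with
  | nil => simp [gaps]
  | @cons u v w h p ih =>
    simp only [gaps]
    rw [Multiset.map_cons, Multiset.sum_cons]
    have h1 : ((f v : ℕ) : ZMod c) - ((f u : ℕ) : ZMod c) = (((f v : ℤ) - f u : ℤ) : ZMod c) := by
      push_cast
      rfl
    rw [h1]
    have h2 := hf u v h
    have h3 : (f v : ℤ) - f u ≤ 1 := by
      have : (f v : ℤ) ≤ f u + 1 := by exact_mod_cast h2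
      linarith
    have h4 := le_lam (c := c) h3
    linarith

theorem moves_bound {c : ℕ} [NeZero c] (hG : G.Preconnected) {f : V → ℕ}
    (hf : ∀ u v, G.Adj u v → f v ≤ f u + 1) (a b : V) {m : ℕ} {ω' : V → ZMod c}
    (hM : Moves G m (fun v => ((f v : ℕ) : ZMod c)) ω') (hd : ∃ d, ∀ v, ω' v = d) :
    (f b - f a) - (f b - f a) / c ≤ m := by
  obtain ⟨p, hp⟩ := Cst_moves hG a b m _ _ hM hd
  have h1 := CP_bound hp
  have h2 := gain_le (c := c) hf p
  have hc : (1 : ℤ) ≤ c := by exact_mod_cast Nat.one_le_iff_ne_zero.2 (NeZero.ne c)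
  have hc0 : 0 < c := Nat.pos_of_ne_zero (NeZero.ne c)
  have h3 : ((c : ℤ) - 1) * ((f b : ℤ) - f a) ≤ c * m := by nlinarith
  by_cases hle : f a ≤ f b
  · obtain ⟨T, hT⟩ : ∃ T, f b = f a + T := ⟨f b - f a, by omega⟩
    have e1 : f b - f a = T := by omega
    rw [e1]
    rw [hT] at h3
    push_cast at h3
    have h4 : ((c : ℤ) - 1) * T ≤ c * m := by
      have : (f a : ℤ) + T - f a = T := by ring
      rwa [this] at h3
    have h5 : c * T ≤ c * m + T := by
      have : (c : ℤ) * T ≤ c * m + T := by linarith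
      exact_mod_cast this
    by_contra hcon
    push Not at hcon
    have h6 : m + T / c + 1 ≤ T := by omega
    have h7 : T < c * (T / c) + c := by
      have := Nat.div_add_mod T c
      have := Nat.mod_lt T hc0
      omega
    have h8 : c * (m + T / c + 1) ≤ c * T := Nat.mul_le_mul_left c h6
    have h9 : c * (m + T / c + 1) = c * m + (c * (T / c) + c) := by ring
    omega
  · have : f b - f a = 0 := by omega
    rw [this]
    simp

theorem exists_moves {C : Type*} [Finite V] (hG : G.Preconnected) (v0 : V) :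
    ∀ (n : ℕ) (ω : V → C), (Comp G ω v0)ᶜ.ncard = n →
      ∃ m ω', Moves G m ω ω' ∧ ∃ d, ∀ v, ω' v = d := by
  classical
  intro n
  induction n using Nat.strong_induction_on with
  | _ n ih =>
    intro ω hn
    by_cases hall : ∀ v, v ∈ Comp G ω v0
    · exact ⟨0, ω, rfl, ω v0, fun v => comp_color (hall v)⟩
    · push Not at hall
      obtain ⟨z, hz⟩ := hall
      obtain ⟨p⟩ := hG v0 z
      obtain ⟨e, -, he1, he2⟩ := p.exists_boundary_dart (Comp G ω v0) ReflTransGen.refl hz
      set x := e.fst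
      set y := e.snd
      have hxy : G.Adj x y := e.adj
      let ω' : V → C := fun u => if u ∈ Comp G ω v0 then ω y else ω u
      have h1 : ∀ u ∈ Comp G ω v0, ω' u = ω y := fun u hu => if_pos hu
      have h2 : ∀ u, u ∉ Comp G ω v0 → ω' u = ω u := fun u hu => if_neg hu
      have hsub : ∀ u ∈ Comp G ω v0, u ∈ Comp G ω' v0 := by
        intro u hu
        have hu' : ReflTransGen (fun x y => G.Adj x y ∧ ω x = ω y) v0 u := hu
        induction hu' with
        | refl => exact ReflTransGen.refl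
        | @tail b c hb hbc ih2 =>
          have hbm : b ∈ Comp G ω v0 := hb
          exact ReflTransGen.tail (ih2 hbm) ⟨hbc.1, (h1 b hbm).trans (h1 c hu).symm⟩
      have hy : y ∈ Comp G ω' v0 := by
        have hx' : ReflTransGen (fun x y => G.Adj x y ∧ ω' x = ω' y) v0 x := hsub x he1
        exact ReflTransGen.tail hx' ⟨hxy, (h1 x he1).trans (h2 y he2).symm⟩
      have hlt : (Comp G ω' v0)ᶜ.ncard < n := by
        rw [← hn]
        apply Set.ncard_lt_ncard _ (Set.toFinite _)
        constructor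
        · intro u hu hu2
          exact hu (hsub u hu2)
        · intro hcon
          exact hcon he2 hy
      obtain ⟨m, ω'', h3, h4⟩ := ih _ hlt ω' rfl
      exact ⟨m + 1, ω'', ⟨ω', ⟨v0, ω y, h1, h2⟩, h3⟩, h4⟩

/-- A lower bound for `M_c` from a height function. -/
theorem maxFlood_ge [Finite V] (hG : G.Preconnected) {f : V → ℕ}
    (hf : ∀ u v, G.Adj u v → f v ≤ f u + 1) {a b : V} (ha : f a = 0) {c : ℕ} (hc : 1 ≤ c)
    (hs : ∀ y, y < c → ∃ v, f v = y) : f b - f b / c ≤ maxFlood G c := by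
  obtain ⟨c', rfl⟩ : ∃ c', c = c' + 1 := ⟨c - 1, by omega⟩
  let ω : V → Fin (c' + 1) := fun v => ((f v : ℕ) : ZMod (c' + 1))
  have hsurj : Function.Surjective ω := by
    intro y
    obtain ⟨v, hv⟩ := hs y.val y.isLt
    refine ⟨v, ?_⟩
    change ((f v : ℕ) : ZMod (c' + 1)) = y
    rw [hv]
    exact ZMod.natCast_zmod_val (n := c' + 1) y
  have h1 : f b - f b / (c' + 1) ≤ floodNumber G ω := by
    obtain ⟨m, ω', h2, h3⟩ := exists_moves (C := Fin (c' + 1)) hG a _ ω rfl
    unfold floodNumber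
    refine le_csInf (s := {m | ∃ ω', Moves G m ω ω' ∧ ∃ d, ∀ v, ω' v = d}) ⟨m, ω', h2, h3⟩ ?_
    rintro m ⟨ω', h2, h3⟩
    have := moves_bound (c := c' + 1) hG hf a b (m := m) (ω' := ω') h2 h3
    rwa [ha, Nat.sub_zero] at this
  refine h1.trans ?_
  apply le_csSup
  · have : {m | ∃ ω : V → Fin (c' + 1), Function.Surjective ω ∧ m = floodNumber G ω} =
        (floodNumber G) '' {ω : V → Fin (c' + 1) | Function.Surjective ω} := by
      ext m
      constructor
      · rintro ⟨ω, h1, h2⟩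
        exact ⟨ω, h1, h2.symm⟩
      · rintro ⟨ω, h1, h2⟩
        exact ⟨ω, h1, h2.symm⟩
    rw [this]
    exact ((Set.toFinite _).image _).bddAbove
  · exact ⟨ω, hsurj, rfl⟩

end Main

section Grid

theorem grid_row {k n : ℕ} (i : Fin k) :
    ∀ (m : ℕ) (hm : m < n) (h0 : 0 < n), (grid k n).Reachable (i, ⟨m, hm⟩) (i, ⟨0, h0⟩) := by
  intro m
  induction m with
  | zero => intro hm h0; exact SimpleGraph.Reachable.refl _
  | succ m ih =>
    intro hm h0
    have hadj : (grid k n).Adj (i, ⟨m + 1, hm⟩) (i, ⟨m, by omega⟩) :=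
      Or.inl ⟨rfl, Or.inr rfl⟩
    exact hadj.reachable.trans (ih (by omega) h0)

theorem grid_col {k n : ℕ} (j : Fin n) :
    ∀ (m : ℕ) (hm : m < k) (h0 : 0 < k), (grid k n).Reachable (⟨m, hm⟩, j) (⟨0, h0⟩, j) := by
  intro m
  induction m with
  | zero => intro hm h0; exact SimpleGraph.Reachable.refl _
  | succ m ih =>
    intro hm h0
    have hadj : (grid k n).Adj (⟨m + 1, hm⟩, j) (⟨m, by omega⟩, j) :=
      Or.inr ⟨rfl, Or.inr rfl⟩
    exact hadj.reachable.trans (ih (by omega) h0)

theorem grid_preconnected (k n : ℕ) : (grid k n).Preconnected := by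
  have h : ∀ x : Fin k × Fin n, ∀ (hk : 0 < k) (hn : 0 < n),
      (grid k n).Reachable x (⟨0, hk⟩, ⟨0, hn⟩) := by
    rintro ⟨⟨i, hi⟩, ⟨j, hj⟩⟩ hk hn
    exact (grid_row ⟨i, hi⟩ j hj hn).trans (grid_col ⟨0, hn⟩ i hi hk)
  intro x y
  have hk : 0 < k := lt_of_le_of_lt (Nat.zero_le _) x.1.isLt
  have hn : 0 < n := lt_of_le_of_lt (Nat.zero_le _) x.2.isLt
  exact (h x hk hn).trans (h y hk hn).symm

theorem grid_bound {k n c : ℕ} (hk : 1 ≤ k) (hn : 1 ≤ n) (hc : 1 ≤ c) (hcn : c ≤ n + k - 1) :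
    (n + k - 2) - (n + k - 2) / c ≤ maxFlood (grid k n) c := by
  have h := maxFlood_ge (G := grid k n) (grid_preconnected k n)
    (f := fun v => (v.1 : ℕ) + v.2) (a := (⟨0, hk⟩, ⟨0, hn⟩))
    (b := (⟨k - 1, by omega⟩, ⟨n - 1, by omega⟩)) (c := c) (by
      rintro ⟨⟨i, hi⟩, ⟨j, hj⟩⟩ ⟨⟨i', hi'⟩, ⟨j', hj'⟩⟩ (⟨h1, h2⟩ | ⟨h1, h2⟩)
      · simp only [Fin.mk.injEq] at h1 h2 ⊢
        omega
      · simp only [Fin.mk.injEq] at h1 h2 ⊢
        omega) (by simp) hc (by
      intro y hy
      by_cases hyk : y ≤ k - 1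
      · exact ⟨(⟨y, by omega⟩, ⟨0, hn⟩), by simp⟩
      · refine ⟨(⟨k - 1, by omega⟩, ⟨y - (k - 1), by omega⟩), ?_⟩
        simp only
        omega)
  have e : k - 1 + (n - 1) = n + k - 2 := by omega
  simp only [e] at h
  exact h

end Grid

/-- Distances from `a` take all values up to the distance of `b`. -/
theorem dist_surj {V : Type*} {G : SimpleGraph V} (hG : G.Connected) (a : V) :
    ∀ (D : ℕ) (b : V), G.dist a b = D → ∀ y, y ≤ D → ∃ v, G.dist a v = y := by
  intro D
  induction D with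
  | zero => intro b hb y hy; exact ⟨b, by omega⟩
  | succ D ih =>
    intro b hb y hy
    by_cases hyD : y = D + 1
    · exact ⟨b, by omega⟩
    · obtain ⟨p, hp⟩ := (hG b a).exists_walk_length_eq_dist
      rw [SimpleGraph.dist_comm, hb] at hp
      cases p with
      | nil => simp at hp
      | @cons _ v _ h p =>
        rw [SimpleGraph.Walk.length_cons] at hp
        have h1 : G.dist v a ≤ D := by
          have := SimpleGraph.dist_le p
          omega
        have h2 : G.dist a b ≤ G.dist a v + G.dist v b := hG.dist_triangle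
        have h3 : G.dist v b = 1 := SimpleGraph.dist_eq_one_iff_adj.2 h.symm
        have h4 : G.dist a v = D := by
          rw [SimpleGraph.dist_comm] at h1
          omega
        exact ih v h4 y (by omega)

/-- The general bound: a connected graph with two vertices at distance `D`. -/
theorem dist_bound {V : Type*} [Finite V] {G : SimpleGraph V} (hG : G.Connected) (a b : V)
    {c : ℕ} (hc : 1 ≤ c) (hcD : c ≤ G.dist a b + 1) :
    G.dist a b - G.dist a b / c ≤ maxFlood G c := by
  apply maxFlood_ge (f := fun v => G.dist a v) hG.preconnected (a := a) (b := b) _ (by simp) hc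
  · intro y hy
    exact dist_surj hG a _ b rfl y (by omega)
  · intro u v huv
    have h2 : G.dist a v ≤ G.dist a u + G.dist u v := hG.dist_triangle
    have h3 : G.dist u v = 1 := SimpleGraph.dist_eq_one_iff_adj.2 huv
    change G.dist a v ≤ G.dist a u + 1
    omega

section TwoColours

variable {V C : Type*} {G : SimpleGraph V}

open Classical in
/-- The number of colour changes along a walk. -/
noncomputable def chg (ω : V → C) : ∀ {a b : V}, G.Walk a b → ℕ
  | _, _, .nil => 0
  | u, _, .cons (v := v) _ p => (if ω u = ω v then 0 else 1) + chg ω p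

theorem chg_append (ω : V → C) {a b c : V} (p : G.Walk a b) (q : G.Walk b c) :
    chg ω (p.append q) = chg ω p + chg ω q := by
  induction p with
  | nil => simp [chg]
  | cons h p ih => simp [chg, ih, add_assoc]

theorem chg_reverse (ω : V → C) {a b : V} (p : G.Walk a b) : chg ω p.reverse = chg ω p := by
  induction p with
  | nil => rfl
  | @cons u v w h p ih =>
    rw [SimpleGraph.Walk.reverse_cons, chg_append, ih]
    simp only [chg, add_zero]
    rw [add_comm]
    congr 1
    by_cases huv : ω u = ω v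
    · rw [if_pos huv, if_pos huv.symm]
    · rw [if_neg huv, if_neg (fun h => huv h.symm)]

theorem chg_congr {ω ω' : V → C} {a b : V} (p : G.Walk a b)
    (h : ∀ v ∈ p.support, ω' v = ω v) : chg ω' p = chg ω p := by
  induction p with
  | nil => rfl
  | cons hadj p ih =>
    simp only [chg]
    rw [ih (fun v hv => h v (by simp [hv])), h _ (by simp), h _ (by simp)]

variable {K : Set V} {ω ω' : V → C} {α d : C}

theorem first_hit' (hn : ∀ v, v ∉ K → ω' v = ω v) {a b : V}
    (p : G.Walk a b) (hp : ∃ v ∈ p.support, v ∈ K) :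
    ∃ x ∈ K, ∃ (p1 : G.Walk a x) (p2 : G.Walk x b),
      chg ω' p1 + chg ω' p2 = chg ω' p ∧ chg ω p1 ≤ chg ω' p1 + 1 := by
  induction p with
  | @nil u =>
    obtain ⟨v, hv, hvK⟩ := hp
    simp only [SimpleGraph.Walk.support_nil, List.mem_singleton] at hv
    exact ⟨u, hv ▸ hvK, SimpleGraph.Walk.nil, SimpleGraph.Walk.nil, by simp [chg], by simp [chg]⟩
  | @cons u v w h p ih =>
    by_cases hu : u ∈ K
    · exact ⟨u, hu, SimpleGraph.Walk.nil, SimpleGraph.Walk.cons h p, by simp [chg],
        by simp [chg]⟩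
    · by_cases hv : v ∈ K
      · refine ⟨v, hv, SimpleGraph.Walk.cons h SimpleGraph.Walk.nil, p, by simp [chg], ?_⟩
        simp only [chg, add_zero]
        split_ifs <;> omega
      · have hp' : ∃ z ∈ p.support, z ∈ K := by
          obtain ⟨z, hz, hzK⟩ := hp
          rw [SimpleGraph.Walk.support_cons, List.mem_cons] at hz
          rcases hz with rfl | hz
          · exact absurd hzK hu
          · exact ⟨z, hz, hzK⟩
        obtain ⟨x, hx, p1, p2, h1, h2⟩ := ih hp'
        refine ⟨x, hx, SimpleGraph.Walk.cons h p1, p2, ?_, ?_⟩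
        · simp only [chg]
          omega
        · simp only [chg]
          rw [hn u hu, hn v hv]
          omega

theorem last_hit' (hn : ∀ v, v ∉ K → ω' v = ω v) {a b : V}
    (p : G.Walk a b) (hp : ∃ v ∈ p.support, v ∈ K) :
    ∃ y ∈ K, ∃ p3 : G.Walk y b, chg ω' p3 ≤ chg ω' p ∧ chg ω p3 ≤ chg ω' p3 + 1 := by
  induction p with
  | @nil u =>
    obtain ⟨v, hv, hvK⟩ := hp
    simp only [SimpleGraph.Walk.support_nil, List.mem_singleton] at hv
    exact ⟨u, hv ▸ hvK, SimpleGraph.Walk.nil, le_refl _, by simp [chg]⟩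
  | @cons u v w h p ih =>
    by_cases hp' : ∃ z ∈ p.support, z ∈ K
    · obtain ⟨y, hy, p3, h1, h2⟩ := ih hp'
      refine ⟨y, hy, p3, ?_, h2⟩
      simp only [chg]
      omega
    · push Not at hp'
      have hu : u ∈ K := by
        obtain ⟨z, hz, hzK⟩ := hp
        rw [SimpleGraph.Walk.support_cons, List.mem_cons] at hz
        rcases hz with rfl | hz
        · exact hzK
        · exact absurd hzK (hp' z hz)
      refine ⟨u, hu, SimpleGraph.Walk.cons h p, le_refl _, ?_⟩
      simp only [chg]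
      rw [chg_congr p (fun z hz => hn z (hp' z hz))]
      split_ifs <;> omega

theorem inner_walk {v0 x : V} (hx : x ∈ Comp G ω v0)
    (hv1 : ∀ u ∈ Comp G ω v0, ω' u = d) :
    ∃ r : G.Walk v0 x, chg ω r = 0 ∧ chg ω' r = 0 := by
  have hx' : ReflTransGen (fun x y => G.Adj x y ∧ ω x = ω y) v0 x := hx
  induction hx' with
  | refl => exact ⟨SimpleGraph.Walk.nil, rfl, rfl⟩
  | @tail b c hb hbc ih =>
    have hbm : b ∈ Comp G ω v0 := hb
    obtain ⟨r, h1, h2⟩ := ih hbm
    refine ⟨r.append (SimpleGraph.Walk.cons hbc.1 SimpleGraph.Walk.nil), ?_, ?_⟩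
    · rw [chg_append, h1]
      simp [chg, hbc.2]
    · rw [chg_append, h2]
      simp [chg, hv1 b hbm, hv1 c hx]

theorem split_walk {a b : V} (p : G.Walk a b) (hp : 1 ≤ chg ω p) :
    ∃ x, ∃ (pa : G.Walk a x) (pb : G.Walk x b), chg ω pa ≤ 1 ∧ chg ω pb + 1 ≤ chg ω p := by
  induction p with
  | nil => simp [chg] at hp
  | @cons u v w h p ih =>
    by_cases huv : ω u = ω v
    · have hp' : 1 ≤ chg ω p := by
        simp only [chg, huv, if_true] at hp
        omega
      obtain ⟨x, pa, pb, h1, h2⟩ := ih hp'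
      refine ⟨x, SimpleGraph.Walk.cons h pa, pb, ?_, ?_⟩
      · simp only [chg, huv, if_true]
        omega
      · simp only [chg, huv, if_true]
        omega
    · refine ⟨v, SimpleGraph.Walk.cons h SimpleGraph.Walk.nil, p, ?_, ?_⟩
      · simp only [chg]
        split_ifs <;> omega
      · simp only [chg]
        rw [if_neg huv]
        omega

/-- The radius, measured in colour changes, is at most `r`. -/
def RadLe (G : SimpleGraph V) (ω : V → C) (r : ℕ) : Prop :=
  ∃ x, ∀ v, ∃ p : G.Walk x v, chg ω p ≤ r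

theorem RadLe_move {r : ℕ} (hM : Move G ω ω') (h : RadLe G ω' r) : RadLe G ω (r + 1) := by
  obtain ⟨v0, d, hv1, hv2⟩ := hM
  obtain ⟨u, hu⟩ := h
  have hv0 : v0 ∈ Comp G ω v0 := ReflTransGen.refl
  -- walks inside the component
  have hin : ∀ x ∈ Comp G ω v0, ∀ y ∈ Comp G ω v0, ∃ q : G.Walk x y,
      chg ω q = 0 ∧ chg ω' q = 0 := by
    intro x hx y hy
    obtain ⟨r1, h1, h1'⟩ := inner_walk hx hv1
    obtain ⟨r2, h2, h2'⟩ := inner_walk hy hv1
    refine ⟨r1.reverse.append r2, ?_, ?_⟩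
    · rw [chg_append, chg_reverse, h1, h2]
    · rw [chg_append, chg_reverse, h1', h2']
  by_cases hA : ∃ x ∈ Comp G ω v0, ∃ q : G.Walk u x, chg ω' q = 0
  · -- the old centre lies in the new component
    obtain ⟨x, hx, q, hq⟩ := hA
    refine ⟨v0, ?_⟩
    intro v
    obtain ⟨p, hp⟩ := hu v
    obtain ⟨r1, h1, h1'⟩ := hin v0 hv0 x hx
    have hlen : chg ω' ((r1.append q.reverse).append p) ≤ r := by
      rw [chg_append, chg_append, chg_reverse, h1', hq]
      omega
    obtain ⟨y, hy, p3, h2, h3⟩ := last_hit' hv2 ((r1.append q.reverse).append p)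
      ⟨v0, by simp, hv0⟩
    obtain ⟨r2, h4, -⟩ := hin v0 hv0 y hy
    refine ⟨r2.append p3, ?_⟩
    rw [chg_append, h4]
    omega
  · -- the nearest walk from the old centre to the component
    push Not at hA
    have hex : ∃ t, ∃ x ∈ Comp G ω v0, ∃ q : G.Walk u x, chg ω' q = t := by
      obtain ⟨p, -⟩ := hu v0
      exact ⟨_, v0, hv0, p, rfl⟩
    classical
    obtain ⟨x, hx, q, hq⟩ := Nat.find_spec hex
    have hmin : ∀ y ∈ Comp G ω v0, ∀ p : G.Walk u y, Nat.find hex ≤ chg ω' p := by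
      intro y hy p
      exact Nat.find_min' hex ⟨y, hy, p, rfl⟩
    generalize Nat.find hex = t at hq hmin
    obtain ⟨x1, hx1, q1, q2, e1, e2⟩ := first_hit' (ω := ω) hv2 q ⟨x, by simp, hx⟩
    have ht1 : chg ω' q1 = t := by
      have := hmin x1 hx1 q1
      omega
    have hq1 : 1 ≤ chg ω' q1 := by
      have := hA x1 hx1 q1
      omega
    -- monotonicity: colour changes of the first part
    have hge : 1 ≤ chg ω q1 := by
      by_contra hcon
      have h0 : chg ω q1 = 0 := by omega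
      -- a walk without colour changes ending in the component stays in it
      have hstay : ∀ {a b : V} (p : G.Walk a b), chg ω p = 0 → b ∈ Comp G ω v0 →
          a ∈ Comp G ω v0 := by
        intro a b p
        induction p with
        | nil => intro _ hb; exact hb
        | @cons u v w h p ih =>
          intro h0 hb
          simp only [chg] at h0
          have h1 : chg ω p = 0 := by omega
          have h2 : ω u = ω v := by
            by_contra hne
            rw [if_neg hne] at h0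
            omega
          have hv : v ∈ Comp G ω v0 := ih h1 hb
          have hv' : ReflTransGen (fun x y => G.Adj x y ∧ ω x = ω y) v0 v := hv
          exact ReflTransGen.tail hv' ⟨h.symm, h2.symm⟩
      have huK : u ∈ Comp G ω v0 := hstay q1 h0 hx1
      exact hA u huK SimpleGraph.Walk.nil rfl
    obtain ⟨x0, pa, pb, f1, f2⟩ := split_walk q1 hge
    refine ⟨x0, ?_⟩
    intro v
    obtain ⟨p, hp⟩ := hu v
    by_cases hmeet : ∃ z ∈ p.support, z ∈ Comp G ω v0
    · obtain ⟨x2, hx2, p1, p2, g1, g2⟩ := first_hit' (ω := ω) hv2 p hmeet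
      obtain ⟨y, hy, p3, g3, g4⟩ := last_hit' hv2 p2 ⟨x2, by simp, hx2⟩
      have ht2 := hmin x2 hx2 p1
      obtain ⟨r2, h4, -⟩ := hin x1 hx1 y hy
      refine ⟨pb.append (r2.append p3), ?_⟩
      rw [chg_append, chg_append, h4]
      omega
    · push Not at hmeet
      refine ⟨pa.reverse.append p, ?_⟩
      rw [chg_append, chg_reverse, ← chg_congr p (fun z hz => hv2 z (hmeet z hz))]
      omega

theorem RadLe_moves (hG : G.Preconnected) (v0 : V) :
    ∀ (m : ℕ) (ω ω' : V → C), Moves G m ω ω' → (∃ d, ∀ v, ω' v = d) → RadLe G ω m := by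
  intro m
  induction m with
  | zero =>
    rintro ω ω' h ⟨d, hd⟩
    have h' : ω' = ω := h
    subst h'
    refine ⟨v0, ?_⟩
    intro v
    obtain ⟨p⟩ := hG v0 v
    refine ⟨p, le_of_eq ?_⟩
    clear h
    induction p with
    | nil => rfl
    | cons h p ih => simp [chg, hd, ih]
  | succ m ih =>
    rintro ω ω' ⟨ω'', h1, h2⟩ hd
    exact RadLe_move h1 (ih ω'' ω' h2 hd)

theorem Moves_snoc {m : ℕ} : ∀ {ω ω1 ω2 : V → C}, Moves G m ω ω1 → Move G ω1 ω2 →
    Moves G (m + 1) ω ω2 := by
  induction m with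
  | zero =>
    intro ω ω1 ω2 h1 h2
    have h : ω1 = ω := h1
    subst h
    exact ⟨ω2, h2, rfl⟩
  | succ m ih =>
    rintro ω ω1 ω2 ⟨ω3, h3, h4⟩ h2
    exact ⟨ω3, h3, ih h4 h2⟩

/-- With two colours, repeatedly recolouring the component of `v0` uses at most `r` moves, where
`ρ` is a rank function with values at most `r`. -/
theorem two_upper {ρ : V → ℕ} {v0 : V} {r : ℕ} (h0 : ∀ v, ρ v = 0 → v = v0)
    (h1 : ∀ v t, ρ v = t + 1 → ∃ u, G.Adj u v ∧ ρ u = t) (hr : ∀ v, ρ v ≤ r)
    (ω : V → Fin 2) : floodNumber G ω ≤ r := by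
  classical
  have key : ∀ t, ∃ ω', Moves G t ω ω' ∧ ∀ v, ρ v ≤ t → v ∈ Comp G ω' v0 := by
    intro t
    induction t with
    | zero =>
      refine ⟨ω, rfl, ?_⟩
      intro v hv
      rw [h0 v (by omega)]
      exact ReflTransGen.refl
    | succ t ih =>
      obtain ⟨ω1, hm, hc⟩ := ih
      let dd : Fin 2 := 1 - ω1 v0
      let ω2 : V → Fin 2 := fun u => if u ∈ Comp G ω1 v0 then dd else ω1 u
      have e1 : ∀ u ∈ Comp G ω1 v0, ω2 u = dd := fun u hu => if_pos hu
      have e2 : ∀ u, u ∉ Comp G ω1 v0 → ω2 u = ω1 u := fun u hu => if_neg hu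
      refine ⟨ω2, Moves_snoc hm ⟨v0, dd, e1, e2⟩, ?_⟩
      have hsub : ∀ u ∈ Comp G ω1 v0, u ∈ Comp G ω2 v0 := by
        intro u hu
        have hu' : ReflTransGen (fun x y => G.Adj x y ∧ ω1 x = ω1 y) v0 u := hu
        induction hu' with
        | refl => exact ReflTransGen.refl
        | @tail b c hb hbc ih2 =>
          have hbm : b ∈ Comp G ω1 v0 := hb
          exact ReflTransGen.tail (ih2 hbm) ⟨hbc.1, (e1 b hbm).trans (e1 c hu).symm⟩
      intro v hv
      by_cases hvt : ρ v ≤ t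
      · exact hsub v (hc v hvt)
      · obtain ⟨u, hadj, hu⟩ := h1 v t (by omega)
        have huc : u ∈ Comp G ω1 v0 := hc u (by omega)
        by_cases hvc : v ∈ Comp G ω1 v0
        · exact hsub v hvc
        · have hne : ω1 u ≠ ω1 v := by
            intro he
            apply hvc
            have hu' : ReflTransGen (fun x y => G.Adj x y ∧ ω1 x = ω1 y) v0 u := huc
            exact ReflTransGen.tail hu' ⟨hadj, he⟩
          have hcol : ω1 u = ω1 v0 := comp_color huc
          have hvd : ω1 v = dd := by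
            rw [hcol] at hne
            have aux : ∀ x y : Fin 2, x ≠ y → y = 1 - x := by decide
            exact aux _ _ hne
          have hu2 : ReflTransGen (fun x y => G.Adj x y ∧ ω2 x = ω2 y) v0 u := hsub u huc
          exact ReflTransGen.tail hu2 ⟨hadj, (e1 u huc).trans (((e2 v hvc).trans hvd).symm)⟩
  obtain ⟨ω', hm, hc⟩ := key r
  exact Nat.sInf_le ⟨ω', hm, ω' v0, fun v => comp_color (hc v (hr v))⟩

end TwoColours

section GridTwo

/-- The chessboard colouring. -/
def chess (k n : ℕ) : Fin k × Fin n → Fin 2 := fun v => if ((v.1 : ℕ) + v.2) % 2 = 0 then 0 else 1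

/-- The grid distance. -/
def l1 {k n : ℕ} (x y : Fin k × Fin n) : ℕ :=
  ((x.1 : ℕ) - y.1) + ((y.1 : ℕ) - x.1) + (((x.2 : ℕ) - y.2) + ((y.2 : ℕ) - x.2))

theorem chess_ne {k n : ℕ} {x y : Fin k × Fin n} (h : (grid k n).Adj x y) :
    chess k n x ≠ chess k n y := by
  obtain ⟨⟨i, hi⟩, ⟨j, hj⟩⟩ := x
  obtain ⟨⟨i', hi'⟩, ⟨j', hj'⟩⟩ := y
  have hpar : (i + j) % 2 ≠ (i' + j') % 2 := by
    rcases h with ⟨h1, h2⟩ | ⟨h1, h2⟩
    · simp only [Fin.mk.injEq] at h1 h2
      omega
    · simp only [Fin.mk.injEq] at h1 h2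
      omega
  unfold chess
  simp only
  by_cases h0 : (i + j) % 2 = 0
  · rw [if_pos h0, if_neg (by omega)]
    decide
  · rw [if_neg h0, if_pos (by omega)]
    decide

theorem l1_step {k n : ℕ} {x y : Fin k × Fin n} (h : (grid k n).Adj x y) (z : Fin k × Fin n) :
    l1 x z ≤ l1 y z + 1 := by
  obtain ⟨⟨i, hi⟩, ⟨j, hj⟩⟩ := x
  obtain ⟨⟨i', hi'⟩, ⟨j', hj'⟩⟩ := y
  unfold l1
  rcases h with ⟨h1, h2⟩ | ⟨h1, h2⟩
  · simp only [Fin.mk.injEq] at h1 h2 ⊢
    omega
  · simp only [Fin.mk.injEq] at h1 h2 ⊢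
    omega

theorem l1_le_chg {k n : ℕ} {x z : Fin k × Fin n} (p : (grid k n).Walk x z) :
    l1 x z ≤ chg (chess k n) p := by
  induction p with
  | nil => simp [l1]
  | @cons u v w h p ih =>
    simp only [chg]
    rw [if_neg (chess_ne h)]
    have h2 := l1_step h w
    omega

theorem grid_two {k n : ℕ} (hk : 1 ≤ k) (hn : 1 ≤ n) (h2 : 2 ≤ k * n) :
    maxFlood (grid k n) 2 = k / 2 + n / 2 := by
  have hk2 : k / 2 < k := Nat.div_lt_self hk (by norm_num)
  have hn2 : n / 2 < n := Nat.div_lt_self hn (by norm_num)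
  apply le_antisymm
  · unfold maxFlood
    apply csSup_le'
    rintro m ⟨ω, -, rfl⟩
    apply two_upper (ρ := fun v => l1 v (⟨k / 2, hk2⟩, ⟨n / 2, hn2⟩))
      (v0 := (⟨k / 2, hk2⟩, ⟨n / 2, hn2⟩))
    · rintro ⟨⟨i, hi⟩, ⟨j, hj⟩⟩ h
      unfold l1 at h
      simp only at h
      simp only [Prod.mk.injEq, Fin.mk.injEq]
      omega
    · rintro ⟨⟨i, hi⟩, ⟨j, hj⟩⟩ t h
      unfold l1 at h
      simp only at h
      by_cases c1 : k / 2 < i
      · refine ⟨(⟨i - 1, by omega⟩, ⟨j, hj⟩), Or.inr ⟨rfl, Or.inl ?_⟩, ?_⟩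
        · simp only
          omega
        · unfold l1
          simp only
          omega
      · by_cases c2 : i < k / 2
        · refine ⟨(⟨i + 1, by omega⟩, ⟨j, hj⟩), Or.inr ⟨rfl, Or.inr ?_⟩, ?_⟩
          · simp only
          · unfold l1
            simp only
            omega
        · by_cases c3 : n / 2 < j
          · refine ⟨(⟨i, hi⟩, ⟨j - 1, by omega⟩), Or.inl ⟨rfl, Or.inl ?_⟩, ?_⟩
            · simp only
              omega
            · unfold l1
              simp only
              omega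
          · refine ⟨(⟨i, hi⟩, ⟨j + 1, by omega⟩), Or.inl ⟨rfl, Or.inr ?_⟩, ?_⟩
            · simp only
            · unfold l1
              simp only
              omega
    · rintro ⟨⟨i, hi⟩, ⟨j, hj⟩⟩
      unfold l1
      simp only
      omega
  · have hsurj : Function.Surjective (chess k n) := by
      intro y
      have hy : y = 0 ∨ y = 1 := by
        revert y
        decide
      rcases hy with rfl | rfl
      · exact ⟨(⟨0, hk⟩, ⟨0, hn⟩), by simp [chess]⟩
      · by_cases hk' : 2 ≤ k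
        · exact ⟨(⟨1, hk'⟩, ⟨0, hn⟩), by simp [chess]⟩
        · have hk1 : k = 1 := by omega
          have hn' : 2 ≤ n := by
            rw [hk1, one_mul] at h2
            exact h2
          exact ⟨(⟨0, hk⟩, ⟨1, hn'⟩), by simp [chess]⟩
    have h1 : k / 2 + n / 2 ≤ floodNumber (grid k n) (chess k n) := by
      obtain ⟨m, ω', h3, h4⟩ := exists_moves (grid_preconnected k n) (⟨0, hk⟩, ⟨0, hn⟩) _
        (chess k n) rfl
      unfold floodNumber
      refine le_csInf (s := {m | ∃ ω', Moves (grid k n) m (chess k n) ω' ∧ ∃ d, ∀ v, ω' v = d})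
        ⟨m, ω', h3, h4⟩ ?_
      rintro m ⟨ω', h3, h4⟩
      obtain ⟨⟨⟨i, hi⟩, ⟨j, hj⟩⟩, hx⟩ :=
        RadLe_moves (grid_preconnected k n) (⟨0, hk⟩, ⟨0, hn⟩) m _ _ h3 h4
      obtain ⟨i', hi', hii⟩ : ∃ i', i' < k ∧ k / 2 ≤ (i - i') + (i' - i) := by
        by_cases hc : k / 2 ≤ i
        · exact ⟨0, hk, by omega⟩
        · exact ⟨k - 1, by omega, by omega⟩
      obtain ⟨j', hj', hjj⟩ : ∃ j', j' < n ∧ n / 2 ≤ (j - j') + (j' - j) := by
        by_cases hc : n / 2 ≤ j
        · exact ⟨0, hn, by omega⟩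
        · exact ⟨n - 1, by omega, by omega⟩
      obtain ⟨p, hp⟩ := hx (⟨i', hi'⟩, ⟨j', hj'⟩)
      have h5 := (l1_le_chg p).trans hp
      unfold l1 at h5
      simp only at h5
      omega
    refine h1.trans ?_
    apply le_csSup
    · have : {m | ∃ ω : Fin k × Fin n → Fin 2, Function.Surjective ω ∧
          m = floodNumber (grid k n) ω} =
          (floodNumber (grid k n)) '' {ω : Fin k × Fin n → Fin 2 | Function.Surjective ω} := by
        ext m
        constructor
        · rintro ⟨ω, h1, h2⟩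
          exact ⟨ω, h1, h2.symm⟩
        · rintro ⟨ω, h1, h2⟩
          exact ⟨ω, h1, h2.symm⟩
      rw [this]
      exact ((Set.toFinite _).image _).bddAbove
    · exact ⟨chess k n, hsurj, rfl⟩

end GridTwo

/-- Worst-case number of moves in the free flooding game: a lower bound for the `k × n` grid and
`c ≤ n + k - 1` colours, the exact value for the grid and two colours, and a lower bound for every
connected graph in terms of distances. -/
theorem result :
    (∀ k n c : ℕ, 1 ≤ k → 1 ≤ n → 1 ≤ c → c ≤ n + k - 1 →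
      (n + k - 1) - (n + k - 1 + (c - 1)) / c ≤ maxFlood (grid k n) c) ∧
    (∀ k n : ℕ, 1 ≤ k → 1 ≤ n → 2 ≤ k * n → maxFlood (grid k n) 2 = k / 2 + n / 2) ∧
    (∀ (V : Type) [Finite V] (G : SimpleGraph V), G.Connected → ∀ (a b : V) (c : ℕ), 1 ≤ c →
      c ≤ G.dist a b + 1 →
      (G.dist a b + 1) - (G.dist a b + 1 + (c - 1)) / c ≤ maxFlood G c) := by
  have key : ∀ D c : ℕ, 1 ≤ c → (D + 1) - (D + 1 + (c - 1)) / c = D - D / c := by
    intro D c hc
    have h1 : (D + 1 + (c - 1)) / c = D / c + 1 := by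
      rw [show D + 1 + (c - 1) = D + c by omega, Nat.add_div_right _ (by omega)]
    omega
  refine ⟨?_, fun k n hk hn h2 => grid_two hk hn h2, ?_⟩
  · intro k n c hk hn hc hcn
    have h := grid_bound hk hn hc hcn
    have e : n + k - 1 = (n + k - 2) + 1 := by omega
    rw [e, key _ _ hc]
    exact h
  · intro V _ G hG a b c hc hcD
    rw [key _ _ hc]
    exact dist_bound hG a b hc hcD

end Pool.Agent.Results.MP_d0f7e0_co.LowerBound
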